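import Pool.Agent.K4H40.NS.Spec

set_option autoImplicit false

namespace Pool.Agent.K4H40.NS

open MvPolynomial Module

theorem phi : StPHI := by
  intro n k K _ I s f hf
  have hfin : FiniteDimensional K (hs n K k) :=
    Module.Finite.iff_fg.2 (MvPolynomial.homogeneousSubmodule_fg (R := K) (σ := Fin n) k)
  -- the form
  let mulL : R n K →ₗ[K] R n K →ₗ[K] K :=
    { toFun := fun a => s.L.comp (LinearMap.mulLeft K a)
      map_add' := by
        intro a b
        ext c
        simp [add_mul]
      map_smul' := by
        intro c a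
        apply LinearMap.ext
        intro b
        simp }
  have hmulL : ∀ a b, mulL a b = s.L (a * b) := fun a b => rfl
  let B : hs n K k →ₗ[K] Dual K (hs n K k) :=
    ((Submodule.subtype (hs n K k)).dualMap.comp mulL).comp
      ((LinearMap.mulLeft K s.ω).comp (Submodule.subtype (hs n K k)))
  have hB : ∀ a b : hs n K k, B a b = s.L (s.ω * a * b) := fun a b => rfl
  let ℓ : Dual K (hs n K k) := (mulL f).comp (Submodule.subtype (hs n K k))
  have hℓ : ∀ b : hs n K k, ℓ b = s.L (f * b) := fun b => rfl
  have hker : ℓ ∈ (LinearMap.ker B).dualAnnihilator := by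
    rw [Submodule.mem_dualAnnihilator]
    intro a ha
    have ha0 : B a = 0 := LinearMap.mem_ker.1 ha
    have h1 : s.ω * (a : R n K) ∈ I ⊔ Ideal.span (Set.range s.θ) := by
      apply s.duality (k + 1) (by omega)
      · rw [MvPolynomial.mem_homogeneousSubmodule]
        have hw := (MvPolynomial.mem_homogeneousSubmodule _ _).1 s.ω_lin
        have haa := (MvPolynomial.mem_homogeneousSubmodule _ _).1 a.2
        have := hw.mul haa
        rwa [add_comm] at this
      · intro g hg
        have hg' : g ∈ hs n K k := by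
          have : 2 * k + 1 - (k + 1) = k := by omega
          rwa [this] at hg
        have := hB a ⟨g, hg'⟩
        rw [ha0] at this
        simpa using this.symm
    have h2 := s.lefschetz a a.2 h1
    rw [hℓ]
    exact s.L_zero _ (Ideal.mul_mem_left _ f h2)
  rw [← LinearMap.range_dualMap_eq_dualAnnihilator_ker] at hker
  obtain ⟨ξ, hξ⟩ := hker
  let a : hs n K k := (Module.evalEquiv K (hs n K k)).symm ξ
  have ha : ∀ φ : Dual K (hs n K k), φ a = ξ φ := fun φ =>
    Module.apply_evalEquiv_symm_apply K (hs n K k) φ ξ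
  refine ⟨a, a.2, ?_⟩
  change f - s.ω * (a : R n K) ∈ I ⊔ Ideal.span (Set.range s.θ)
  have hw := (MvPolynomial.mem_homogeneousSubmodule _ _).1 s.ω_lin
  have haa := (MvPolynomial.mem_homogeneousSubmodule _ _).1 a.2
  have hwa : s.ω * (a : R n K) ∈ hs n K (k + 1) := by
    rw [MvPolynomial.mem_homogeneousSubmodule]
    have := hw.mul haa
    rwa [add_comm] at this
  apply s.duality (k + 1) (by omega) _ (Submodule.sub_mem _ hf hwa)
  intro g hg
  have hg' : g ∈ hs n K k := by
    have : 2 * k + 1 - (k + 1) = k := by omega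
    rwa [this] at hg
  have h1 : ℓ ⟨g, hg'⟩ = s.L (s.ω * a * g) := by
    rw [← hξ, LinearMap.dualMap_apply, ← ha, hB]
    congr 1
    ring
  rw [hℓ] at h1
  rw [sub_mul, map_sub, sub_eq_zero]
  exact h1

end Pool.Agent.K4H40.NS
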